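import Mathlib
import Pool.Agent.H58.GQ.C3
import Pool.Agent.H58.GQ.D1

/-!
# Generalized quadrangles of order `(s, t)` with `t ≥ s^2 - s - 1`, `s ≥ 3`

Such a generalized quadrangle has `t = s^2`, or `t = s^2 - s - 1` and `s ≠ 4`: there is none of order
`(4, 11)` and none of order `(s, s^2 - s)`, in particular none of order `(4, 12)`. If
`t = s^2 - s - 1`, a triad has at most `s + 1` centres and never exactly one, the triads without a
centre are arranged in blocks of at most `s + 1` points (at most `s` points if `s` is even), points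
joined by such a triad see the same numbers of centres, and the numbers of centres satisfy second
and third moment identities.
-/

set_option autoImplicit false

open Finset

universe u v

namespace Pool.Agent.Results.MP_a3aa3c_co.TriadStructure

/-- The incidence structure with points `P`, lines `B` and incidence relation `I` satisfies the
axioms of a generalized quadrangle of order `(s, t)`:
* each line is incident with exactly `s + 1` points,
* each point is incident with exactly `t + 1` lines,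
* two distinct points are incident with at most one common line,
* for a point `p` and a line `L` that are not incident there is exactly one pair `(q, M)` of a
  point and a line with `q` on `L`, `M` through `p`, and `q` on `M`. -/
structure IsGQ {P : Type u} {B : Type v} (I : P → B → Prop) (s t : ℕ) : Prop where
  line_card : ∀ L : B, Nat.card {p : P // I p L} = s + 1
  point_card : ∀ p : P, Nat.card {L : B // I p L} = t + 1
  two_points : ∀ p q : P, p ≠ q → ∀ L M : B, I p L → I q L → I p M → I q M → L = M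
  projection : ∀ (p : P) (L : B), ¬ I p L →
    ∃! x : P × B, I x.1 L ∧ I p x.2 ∧ I x.1 x.2

/-- `x` and `y` are different and some line is incident with both. -/
def Coll {P : Type u} {B : Type v} (I : P → B → Prop) (x y : P) : Prop :=
  x ≠ y ∧ ∃ L, I x L ∧ I y L

/-- A triad: three points, pairwise different and noncollinear. -/
def Triad {P : Type u} {B : Type v} (I : P → B → Prop) (x y z : P) : Prop :=
  x ≠ y ∧ x ≠ z ∧ y ≠ z ∧ ¬ Coll I x y ∧ ¬ Coll I x z ∧ ¬ Coll I y z

/-- The number of centres of `x`, `y`, `z`: points collinear with all three. -/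
noncomputable def centres {P : Type u} {B : Type v} (I : P → B → Prop) (x y z : P) : ℕ :=
  Nat.card {w : P // Coll I w x ∧ Coll I w y ∧ Coll I w z}

open Classical in
/-- The function attached to a pair of noncollinear points `p`, `x`: its value is `s` at `p` and at
`x`, it is `-1` at the points collinear with `p` or `x`, and `s - c` at a point `z` which forms a
triad with `c` centres with `p` and `x`. -/
noncomputable def fval {P : Type u} {B : Type v} (I : P → B → Prop) (s : ℕ) (p x z : P) : ℤ :=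
  if z = p ∨ z = x then s
  else if Coll I z p ∨ Coll I z x then -1
  else s - centres I p x z

/-- The structure of the triads of a generalized quadrangle of order `(s, s^2 - s - 1)`. -/
def Structure {P : Type u} {B : Type v} (I : P → B → Prop) (s : ℕ) : Prop :=
  -- a triad has at most `s + 1` centres, and never exactly one
  (∀ x y z, Triad I x y z → centres I x y z ≤ s + 1 ∧ centres I x y z ≠ 1) ∧
  -- if `p, x, y` and `p, y, z` are triads without a centre then so are `p, x, z` and `x, y, z`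
  (∀ p x y z, x ≠ z → Triad I p x y → centres I p x y = 0 → Triad I p y z →
    centres I p y z = 0 → (Triad I p x z ∧ centres I p x z = 0) ∧
      (Triad I x y z ∧ centres I x y z = 0)) ∧
  -- for noncollinear `p, x` at most `s - 1` points `y` form with them a triad without a centre;
  -- if there are `s - 1`, then `s` is odd and every triad `p, x, z` has `0`, `s - 1` or `s + 1`
  -- centres
  (∀ p x, p ≠ x → ¬ Coll I p x →
    Nat.card {y : P // Triad I p x y ∧ centres I p x y = 0} ≤ s - 1 ∧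
    (Nat.card {y : P // Triad I p x y ∧ centres I p x y = 0} = s - 1 →
      Odd s ∧ ∀ z, Triad I p x z →
        centres I p x z = 0 ∨ centres I p x z = s - 1 ∨ centres I p x z = s + 1)) ∧
  -- if the triad `p, x, y` has no centre, then `x` and `y` see the same numbers of centres
  (∀ p x y z, Triad I p x y → centres I p x y = 0 → Triad I p x z → Triad I p y z →
    centres I p x z = centres I p y z) ∧
  -- and the points collinear with `x` but not with `p`, `y` form triads with `s + 1` centres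
  (∀ p x y z, Triad I p x y → centres I p x y = 0 → Coll I x z → Triad I p y z →
    centres I p y z = s + 1) ∧
  -- local second moments
  (∀ p x, p ≠ x → ¬ Coll I p x → ∀ y,
    ∑ᶠ z ∈ {z | Coll I y z}, fval I s p x z ^ 2
      = (s - 1) * fval I s p x y ^ 2 - (s ^ 2 - 1) * fval I s p x y + s * (s ^ 2 - 1)) ∧
  -- global second and third moments
  (∀ p x, p ≠ x → ¬ Coll I p x →
    ∑ᶠ z, fval I s p x z ^ 2 = s * (s + 1) ^ 2 * (s - 1) ∧
    ∑ᶠ z, fval I s p x z ^ 3 = s * (s + 1) ^ 2 * (s - 1))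

open Classical in
/-- Incidence as a number. -/
noncomputable def Nf {P : Type u} {B : Type v} (I : P → B → Prop) (x : P) (L : B) : ℝ :=
  if I x L then 1 else 0

open Classical in
/-- Collinearity of distinct points as a number. -/
noncomputable def Af {P : Type u} {B : Type v} (I : P → B → Prop) (x y : P) : ℝ :=
  if x ≠ y ∧ ∃ L, I x L ∧ I y L then 1 else 0

section
variable {P : Type u} {B : Type v} [Fintype P] [Fintype B] [DecidableEq P]
  {I : P → B → Prop} {s t : ℕ}

omit [Fintype P] [Fintype B] [DecidableEq P] in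
theorem Nf_pos {x : P} {L : B} (h : I x L) : Nf I x L = 1 := by simp [Nf, h]

omit [Fintype P] [Fintype B] [DecidableEq P] in
theorem Nf_neg {x : P} {L : B} (h : ¬ I x L) : Nf I x L = 0 := by simp [Nf, h]

omit [Fintype P] [Fintype B] [DecidableEq P] in
theorem Af_self (x : P) : Af I x x = 0 := by simp [Af]

omit [Fintype P] [Fintype B] [DecidableEq P] in
theorem Af_pos {x y : P} (hne : x ≠ y) {L : B} (hx : I x L) (hy : I y L) : Af I x y = 1 := by
  rw [Af, if_pos ⟨hne, L, hx, hy⟩]

omit [Fintype P] [Fintype B] [DecidableEq P] in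
theorem Af_one_iff {x y : P} : Af I x y = 1 ↔ x ≠ y ∧ ∃ L, I x L ∧ I y L := by
  unfold Af
  split_ifs with h <;> simp [h]

omit [Fintype P] [Fintype B] [DecidableEq P] in
theorem Af_zero_one (x y : P) : Af I x y = 0 ∨ Af I x y = 1 := by
  unfold Af
  split_ifs <;> simp

omit [Fintype P] [Fintype B] [DecidableEq P] in
theorem Af_symm (x y : P) : Af I x y = Af I y x := by
  unfold Af
  congr 1
  apply propext
  constructor
  · rintro ⟨h, L, h1, h2⟩
    exact ⟨h.symm, L, h2, h1⟩
  · rintro ⟨h, L, h1, h2⟩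
    exact ⟨h.symm, L, h2, h1⟩

omit [Fintype B] [DecidableEq P] in
theorem sum_points (h : IsGQ I s t) (L : B) : ∑ x, Nf I x L = (s : ℝ) + 1 := by
  classical
  have h1 := h.line_card L
  rw [Nat.card_eq_fintype_card, Fintype.card_subtype] at h1
  unfold Nf
  rw [Finset.sum_boole, h1]
  push_cast
  ring

omit [Fintype P] [DecidableEq P] in
theorem sum_lines (h : IsGQ I s t) (x : P) : ∑ L, Nf I x L = (t : ℝ) + 1 := by
  classical
  have h1 := h.point_card x
  rw [Nat.card_eq_fintype_card, Fintype.card_subtype] at h1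
  unfold Nf
  rw [Finset.sum_boole, h1]
  push_cast
  ring

omit [Fintype P] in
theorem sum_Nf_Nf (h : IsGQ I s t) (x y : P) :
    ∑ L, Nf I x L * Nf I y L = Af I x y + ((t : ℝ) + 1) * (1 : Matrix P P ℝ) x y := by
  by_cases hxy : x = y
  · subst hxy
    rw [Af_self, Matrix.one_apply_eq, ← sum_lines h x]
    have : ∀ L, Nf I x L * Nf I x L = Nf I x L := by
      intro L
      by_cases hL : I x L
      · rw [Nf_pos hL]; ring
      · rw [Nf_neg hL]; ring
    simp_rw [this]
    ring
  · rw [Matrix.one_apply_ne hxy]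
    by_cases hc : ∃ L, I x L ∧ I y L
    · obtain ⟨L, hx, hy⟩ := hc
      rw [Af_pos hxy hx hy, Finset.sum_eq_single L]
      · rw [Nf_pos hx, Nf_pos hy]; ring
      · intro M _ hM
        by_cases hxM : I x M
        · by_cases hyM : I y M
          · exact absurd (h.two_points x y hxy M L hxM hyM hx hy) hM
          · rw [Nf_neg hyM]; ring
        · rw [Nf_neg hxM]; ring
      · intro hL
        exact absurd (Finset.mem_univ L) hL
    · have hA : Af I x y = 0 := by
        rcases Af_zero_one (I := I) x y with h0 | h0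
        · exact h0
        · exact absurd (Af_one_iff.1 h0).2 hc
      rw [hA]
      have : ∀ L, Nf I x L * Nf I y L = 0 := by
        intro L
        by_cases hxM : I x L
        · by_cases hyM : I y L
          · exact absurd ⟨L, hxM, hyM⟩ hc
          · rw [Nf_neg hyM]; ring
        · rw [Nf_neg hxM]; ring
      simp_rw [this]
      simp

omit [Fintype B] in
/-- The key incidence identity. -/
theorem sum_Af_Nf (h : IsGQ I s t) (z : P) (L : B) :
    ∑ w, Af I z w * Nf I w L = 1 + ((s : ℝ) - 1) * Nf I z L := by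
  by_cases hz : I z L
  · rw [Nf_pos hz]
    have key : ∀ w, Af I z w * Nf I w L = Nf I w L - (1 : Matrix P P ℝ) z w := by
      intro w
      by_cases hzw : z = w
      · subst hzw
        rw [Af_self, Nf_pos hz, Matrix.one_apply_eq]; ring
      · rw [Matrix.one_apply_ne hzw]
        by_cases hw : I w L
        · rw [Af_pos hzw hz hw]; ring
        · rw [Nf_neg hw]; ring
    simp_rw [key, Finset.sum_sub_distrib, sum_points h L]
    simp [Matrix.one_apply]
  · rw [Nf_neg hz]
    obtain ⟨⟨w, M⟩, ⟨h1, h2, h3⟩, huniq⟩ := h.projection z L hz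
    simp only at h1 h2 h3
    have hzw : z ≠ w := by
      rintro rfl
      exact hz h1
    rw [Finset.sum_eq_single w]
    · rw [Af_pos hzw h2 h3, Nf_pos h1]; ring
    · intro w' _ hw'
      by_cases hwL : I w' L
      · rcases Af_zero_one (I := I) z w' with h0 | h0
        · rw [h0]; ring
        · obtain ⟨_, M', h4, h5⟩ := Af_one_iff.1 h0
          have := huniq (w', M') ⟨hwL, h4, h5⟩
          exact absurd (congrArg Prod.fst this) hw'
      · rw [Nf_neg hwL]; ring
    · intro hL
      exact absurd (Finset.mem_univ w) hL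

/-- The collinearity matrix has the properties used in the linear algebra. -/
theorem gqMat (h : IsGQ I s t) :
    Pool.Agent.H253_GQ.GQMat (Af I) (s : ℝ) ((t : ℝ) + 1) where
  zero_one := Af_zero_one
  symm := Af_symm
  diag := Af_self
  deg := by
    intro x
    have h1 : ∀ y, Af I x y = ∑ L, Nf I x L * Nf I y L
        - ((t : ℝ) + 1) * (1 : Matrix P P ℝ) x y := by
      intro y
      rw [sum_Nf_Nf h]; ring
    simp_rw [h1, Finset.sum_sub_distrib, ← Finset.mul_sum]
    rw [Finset.sum_comm]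
    simp_rw [← Finset.mul_sum, sum_points h, ← Finset.sum_mul, sum_lines h]
    have : ∑ i, (1 : Matrix P P ℝ) x i = 1 := by simp [Matrix.one_apply]
    rw [this]
    ring
  sq := by
    intro x z
    have h1 : ∀ y, Af I x y * Af I y z = ∑ L, Nf I z L * (Af I x y * Nf I y L)
        - ((t : ℝ) + 1) * ((1 : Matrix P P ℝ) y z * Af I x y) := by
      intro y
      have h2 := sum_Nf_Nf h y z
      have h3 : Af I y z = ∑ L, Nf I y L * Nf I z L
          - ((t : ℝ) + 1) * (1 : Matrix P P ℝ) y z := by rw [h2]; ring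
      rw [h3, mul_sub, Finset.mul_sum]
      congr 1
      · exact Finset.sum_congr rfl fun L _ => by ring
      · ring
    simp_rw [h1, Finset.sum_sub_distrib, ← Finset.mul_sum]
    rw [Finset.sum_comm]
    simp_rw [← Finset.mul_sum, sum_Af_Nf h]
    have h4 : ∑ i, (1 : Matrix P P ℝ) i z * Af I x i = Af I x z := by simp [Matrix.one_apply]
    have h5 : ∀ L, Nf I z L * (1 + ((s : ℝ) - 1) * Nf I x L)
        = Nf I z L + ((s : ℝ) - 1) * (Nf I x L * Nf I z L) := by
      intro L
      ring
    rw [h4]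
    simp_rw [h5, Finset.sum_add_distrib, ← Finset.mul_sum, sum_lines h, sum_Nf_Nf h x z]
    ring
  line := by
    intro p q hpq z
    obtain ⟨hne, L, hp, hq⟩ := Af_one_iff.1 hpq
    have key : ∀ w, Af I p w * Af I q w + (1 : Matrix P P ℝ) p w + (1 : Matrix P P ℝ) q w
        = Nf I w L := by
      intro w
      by_cases h1 : p = w
      · subst h1
        rw [Af_self, Matrix.one_apply_eq, Matrix.one_apply_ne hne.symm, Nf_pos hp]; ring
      · by_cases h2 : q = w
        · subst h2
          rw [Af_self, Matrix.one_apply_eq, Matrix.one_apply_ne hne, Nf_pos hq]; ring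
        · rw [Matrix.one_apply_ne h1, Matrix.one_apply_ne h2]
          by_cases hw : I w L
          · rw [Af_pos h1 hp hw, Af_pos h2 hq hw, Nf_pos hw]; ring
          · rw [Nf_neg hw]
            rcases Af_zero_one (I := I) p w with h3 | h3
            · rw [h3]; ring
            · rcases Af_zero_one (I := I) q w with h4 | h4
              · rw [h4]; ring
              · exfalso
                obtain ⟨_, M1, h5, h6⟩ := Af_one_iff.1 h3
                obtain ⟨_, M2, h7, h8⟩ := Af_one_iff.1 h4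
                have e := (h.projection w L hw).unique
                  (y₁ := (p, M1)) (y₂ := (q, M2)) ⟨hp, h6, h5⟩ ⟨hq, h8, h7⟩
                exact hne (congrArg Prod.fst e)
    simp_rw [key]
    exact sum_Af_Nf h z L

open Pool.Agent.H58.GQ in
omit [Fintype P] [Fintype B] in
/-- The line vector of two points of a line. -/
theorem e_eq (h : IsGQ I s t) {p q : P} (hpq : p ≠ q) {L : B} (hp : I p L) (hq : I q L) (w : P) :
    e (Af I) p q w = Nf I w L := by
  unfold e
  by_cases h1 : p = w
  · subst h1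
    rw [Af_self, Matrix.one_apply_eq, Matrix.one_apply_ne hpq.symm, Nf_pos hp]; ring
  · by_cases h2 : q = w
    · subst h2
      rw [Af_self, Matrix.one_apply_eq, Matrix.one_apply_ne hpq, Nf_pos hq]; ring
    · rw [Matrix.one_apply_ne h1, Matrix.one_apply_ne h2]
      by_cases hw : I w L
      · rw [Af_pos h1 hp hw, Af_pos h2 hq hw, Nf_pos hw]; ring
      · rw [Nf_neg hw]
        rcases Af_zero_one (I := I) p w with h3 | h3
        · rw [h3]; ring
        · rcases Af_zero_one (I := I) q w with h4 | h4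
          · rw [h4]; ring
          · exfalso
            obtain ⟨_, M1, h5, h6⟩ := Af_one_iff.1 h3
            obtain ⟨_, M2, h7, h8⟩ := Af_one_iff.1 h4
            have e := (h.projection w L hw).unique
              (y₁ := (p, M1)) (y₂ := (q, M2)) ⟨hp, h6, h5⟩ ⟨hq, h8, h7⟩
            exact hpq (congrArg Prod.fst e)

omit [Fintype B] [DecidableEq P] in
/-- Parametrisation of the five points of a line. -/
theorem line_param (h : IsGQ I 4 t) (L : B) : ∃ x : Fin 5 → P,
    (∀ i, I (x i) L) ∧ Function.Injective x ∧ (∀ p, I p L → ∃ i, x i = p) ∧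
    ∀ φ : P → ℝ, ∑ y, Nf I y L * φ y = ∑ i, φ (x i) := by
  classical
  have h1 := h.line_card L
  rw [Nat.card_eq_fintype_card] at h1
  let σ : {p : P // I p L} ≃ Fin 5 := Fintype.equivFinOfCardEq h1
  refine ⟨fun i => (σ.symm i).1, fun i => (σ.symm i).2, ?_, ?_, ?_⟩
  · intro i j hij
    exact σ.symm.injective (Subtype.ext hij)
  · intro p hp
    exact ⟨σ ⟨p, hp⟩, by simp⟩
  · intro φ
    have h2 : ∑ i, φ (σ.symm i).1 = ∑ y : {p : P // I p L}, φ y.1 :=
      Equiv.sum_comp σ.symm (fun y : {p : P // I p L} => φ y.1)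
    rw [h2]
    have h3 : ∑ y : {p : P // I p L}, φ y.1 = ∑ y ∈ Finset.univ.filter (fun y => I y L), φ y := by
      rw [← Finset.sum_subtype_eq_sum_filter]
      simp
    rw [h3, Finset.sum_filter]
    refine Finset.sum_congr rfl fun y _ => ?_
    by_cases hy : I y L
    · rw [Nf_pos hy, if_pos hy]; ring
    · rw [Nf_neg hy, if_neg hy]; ring

end

/-- The weights of the final count. -/
def hz : ℕ → ℤ
  | 0 => 2
  | 1 => -24
  | 2 => 5
  | 3 => -36
  | 4 => -282
  | _ => 0

/-- The contribution of a line with values `a, b, c, d, e`. -/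
def Psi (a b c d e : ℕ) : ℤ :=
  4 * ((a : ℤ) ^ 2 + (b : ℤ) ^ 2 + (c : ℤ) ^ 2 + (d : ℤ) ^ 2 + (e : ℤ) ^ 2) *
      (hz a + hz b + hz c + hz d + hz e)
    - 5 * (hz a * ((a : ℤ) ^ 2 - 3 * a + 10) + hz b * ((b : ℤ) ^ 2 - 3 * b + 10)
      + hz c * ((c : ℤ) ^ 2 - 3 * c + 10) + hz d * ((d : ℤ) ^ 2 - 3 * d + 10)
      + hz e * ((e : ℤ) ^ 2 - 3 * e + 10))

theorem psi_fin : ∀ a b c d : Fin 6, a.val + b.val + c.val + d.val ≤ 5 →
    0 ≤ Psi a b c d (5 - a - b - c - d) ∧
    ((a.val = 5 ∨ b.val = 5 ∨ c.val = 5 ∨ d.val = 5 ∨ 5 - a.val - b.val - c.val - d.val = 5) →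
      0 < Psi a b c d (5 - a - b - c - d)) := by
  decide +kernel

theorem psi_nonneg {a b c d e : ℕ} (h : a + b + c + d + e = 5) :
    0 ≤ Psi a b c d e ∧
    ((a = 5 ∨ b = 5 ∨ c = 5 ∨ d = 5 ∨ e = 5) → 0 < Psi a b c d e) := by
  have he : e = 5 - a - b - c - d := by omega
  have := psi_fin ⟨a, by omega⟩ ⟨b, by omega⟩ ⟨c, by omega⟩ ⟨d, by omega⟩ (by simp; omega)
  simp only at this
  rw [he]
  exact this

section
variable {P : Type u} {B : Type v} {I : P → B → Prop} {s t : ℕ}

theorem Coll.symm {x y : P} (h : Coll I x y) : Coll I y x := by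
  obtain ⟨h1, L, h2, h3⟩ := h
  exact ⟨h1.symm, L, h3, h2⟩

theorem coll_comm {x y : P} : Coll I x y ↔ Coll I y x := ⟨Coll.symm, Coll.symm⟩

theorem Triad.swap12 {x y z : P} (h : Triad I x y z) : Triad I y x z := by
  obtain ⟨h1, h2, h3, h4, h5, h6⟩ := h
  exact ⟨h1.symm, h3, h2, fun h => h4 h.symm, h6, h5⟩

theorem Triad.swap23 {x y z : P} (h : Triad I x y z) : Triad I x z y := by
  obtain ⟨h1, h2, h3, h4, h5, h6⟩ := h
  exact ⟨h2, h1, h3.symm, h5, h4, fun h => h6 h.symm⟩

theorem centres_swap12 (x y z : P) : centres I x y z = centres I y x z := by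
  unfold centres
  exact Nat.card_congr (Equiv.subtypeEquivRight fun w => by tauto)

theorem centres_swap23 (x y z : P) : centres I x y z = centres I x z y := by
  unfold centres
  exact Nat.card_congr (Equiv.subtypeEquivRight fun w => by tauto)

theorem Af_coll {x y : P} (h : Coll I x y) : Af I x y = 1 := Af_one_iff.2 h

theorem Af_not {x y : P} (h : ¬ Coll I x y) : Af I x y = 0 := by
  rcases Af_zero_one (I := I) x y with h0 | h0
  · exact h0
  · exact absurd (Af_one_iff.1 h0) h

theorem sum_centres [Fintype P] (x y z : P) :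
    ∑ w, Af I x w * (Af I y w * Af I z w) = (centres I x y z : ℝ) := by
  classical
  unfold centres
  rw [Nat.card_eq_fintype_card, Fintype.card_subtype, ← Finset.sum_boole]
  refine Finset.sum_congr rfl fun w _ => ?_
  rw [Af_symm x w, Af_symm y w, Af_symm z w]
  by_cases h1 : Coll I w x
  · by_cases h2 : Coll I w y
    · by_cases h3 : Coll I w z
      · rw [Af_coll h1, Af_coll h2, Af_coll h3, if_pos ⟨h1, h2, h3⟩]; ring
      · rw [Af_not h3, if_neg (fun h => h3 h.2.2)]; ring
    · rw [Af_not h2, if_neg (fun h => h2 h.2.1)]; ring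
  · rw [Af_not h1, if_neg (fun h => h1 h.1)]; ring

end

section
open Pool.Agent.H58.GQ

variable {P : Type u} {B : Type v} [Fintype P] [Fintype B] [DecidableEq P]
  {I : P → B → Prop} {s t : ℕ}

theorem gqMat2 (h : IsGQ I s t) (ht : t + s + 1 = s ^ 2) :
    Pool.Agent.H253_GQ.GQMat (Af I) (s : ℝ) ((s : ℝ) ^ 2 - s) := by
  have h1 := gqMat h
  have h2 : (t : ℝ) + 1 = (s : ℝ) ^ 2 - s := by
    have : (t : ℝ) + s + 1 = (s : ℝ) ^ 2 := by exact_mod_cast ht
    linarith
  rwa [h2] at h1

theorem F_eq (h : IsGQ I s t) (hs : 3 ≤ s) (ht : t + s + 1 = s ^ 2) {p x : P} (hpx : p ≠ x)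
    (hc : ¬ Coll I p x) (z : P) : F (Af I) (s : ℝ) p x z = (fval I s p x z : ℝ) := by
  classical
  have hA := gqMat2 h ht
  have hs' : (3 : ℝ) ≤ s := by exact_mod_cast hs
  obtain ⟨hs0, hs1, hs2, hs3⟩ := s_facts hs'
  have hpx' : Af I p x = 0 := Af_not hc
  unfold fval
  by_cases h1 : z = p
  · subst h1
    rw [if_pos (Or.inl rfl), F_self hA hs']
    simp
  by_cases h2 : z = x
  · subst h2
    rw [if_pos (Or.inr rfl), F, P_diag hA hs', W_apply, g_one hpx hpx', Af_symm z p, hpx',
      Matrix.one_apply_ne hpx.symm]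
    rw [Int.cast_natCast]
    field_simp
    ring
  rw [if_neg (by tauto)]
  by_cases h3 : Coll I z p
  · rw [if_pos (Or.inl h3), F_adj hA hs' (Af_coll h3.symm)]
    simp
  have hpz : Af I p z = 0 := Af_not fun h' => h3 h'.symm
  rw [F_far hA hs' hpx hpx' (Ne.symm h1) hpz, Matrix.one_apply_ne h2]
  by_cases h4 : Coll I z x
  · rw [if_pos (Or.inr h4), triple_edge hA (Ne.symm h1) hpz hpx hpx' (Af_coll h4), Af_coll h4]
    push_cast
    ring
  · rw [if_neg (by tauto), Af_not h4, sum_centres, centres_swap23]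
    push_cast
    ring

theorem fval_ge (h : IsGQ I s t) (hs : 3 ≤ s) (ht : t + s + 1 = s ^ 2) {p x : P} (hpx : p ≠ x)
    (hc : ¬ Coll I p x) (z : P) : -1 ≤ fval I s p x z := by
  have hA := gqMat2 h ht
  have hs' : (3 : ℝ) ≤ s := by exact_mod_cast hs
  have h1 := F_lower hA hs' hpx (Af_not hc) z
  rw [F_eq h hs ht hpx hc] at h1
  have h2 : (0 : ℤ) ≤ (s : ℤ) ^ 2 + s * (s - 1) * fval I s p x z - fval I s p x z ^ 2 := by
    exact_mod_cast h1
  have h3 : (3 : ℤ) ≤ s := by exact_mod_cast hs
  by_contra hcon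
  push Not at hcon
  have h4 : fval I s p x z + 2 ≤ 0 := by omega
  have h5 : 0 ≤ (s : ℤ) * (s - 1) * (-(fval I s p x z + 2)) := by
    apply mul_nonneg
    · nlinarith
    · linarith
  nlinarith

omit [Fintype P] [Fintype B] [DecidableEq P] in
theorem fval_triad {p x z : P} (hT : Triad I p x z) :
    fval I s p x z = s - centres I p x z := by
  obtain ⟨h1, h2, h3, h4, h5, h6⟩ := hT
  unfold fval
  rw [if_neg, if_neg]
  · rintro (h | h)
    · exact h5 h.symm
    · exact h6 h.symm
  · rintro (h | h)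
    · exact h2 h.symm
    · exact h3 h.symm

theorem ne_one (h : IsGQ I s t) (hs : 3 ≤ s) (ht : t + s + 1 = s ^ 2) {p x y : P}
    (hT : Triad I p x y) : centres I p x y ≠ 1 := by
  intro h1
  have hA := gqMat2 h ht
  have hs' : (3 : ℝ) ≤ s := by exact_mod_cast hs
  have hpx := hT.1
  have hc := hT.2.2.2.1
  have hfy : fval I s p x y = s - 1 := by
    rw [fval_triad hT, h1]; push_cast; ring
  have hge : ∀ w, -1 ≤ F (Af I) (s : ℝ) p x w := by
    intro w
    rw [F_eq h hs ht hpx hc]
    exact_mod_cast fval_ge h hs ht hpx hc w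
  have hz : ∀ z, Af I y z = 1 → fval I s p x z = -1 ∨ fval I s p x z = 0 := by
    intro z hz
    have h2 := F_line_le hA hs' hge hz
    rw [F_eq h hs ht hpx hc, F_eq h hs ht hpx hc, hfy] at h2
    have h3 := fval_ge h hs ht hpx hc z
    have h4 : (fval I s p x z : ℝ) ≤ 0 := by
      push_cast at h2
      linarith
    have h5 : fval I s p x z ≤ 0 := by exact_mod_cast h4
    omega
  have e1 := F_nbr_sq hA hs' hpx (Af_not hc) y
  have e2 := F_nbr hA hs' p x y
  simp_rw [F_eq h hs ht hpx hc] at e1 e2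
  have e3 : ∑ z, Af I y z * (fval I s p x z : ℝ) ^ 2
      = - ∑ z, Af I y z * (fval I s p x z : ℝ) := by
    rw [← Finset.sum_neg_distrib]
    refine Finset.sum_congr rfl fun z _ => ?_
    rcases Af_zero_one (I := I) y z with h0 | h0
    · rw [h0]; ring
    · rcases hz z h0 with h2 | h2 <;> rw [h2] <;> push_cast <;> ring
  rw [e1, e2, hfy] at e3
  push_cast at e3
  have e4 : 2 * ((s : ℝ) - 1) = 0 := by linear_combination e3
  linarith

theorem P_triad (h : IsGQ I s t) (hs : 3 ≤ s) (ht : t + s + 1 = s ^ 2) {p x y : P}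
    (hT : Triad I p x y) : H58.GQ.P (Af I) (s : ℝ) p x y
      = (((s : ℝ) ^ 2 - 1) - s * (centres I p x y : ℝ)) / ((s : ℝ) ^ 2 * ((s : ℝ) ^ 2 - 1)) := by
  have hA := gqMat2 h ht
  have hs' : (3 : ℝ) ≤ s := by exact_mod_cast hs
  obtain ⟨h1, h2, h3, h4, h5, h6⟩ := hT
  rw [P_entry hA hs' h1 (Af_not h4) h2 (Af_not h5), sum_centres, Af_not h6,
    Matrix.one_apply_ne h3]
  ring

theorem P_one (h : IsGQ I s t) (hs : 3 ≤ s) (ht : t + s + 1 = s ^ 2) {p x : P}
    (hpx : p ≠ x) (hc : ¬ Coll I p x) : H58.GQ.P (Af I) (s : ℝ) p x x = 1 / (s : ℝ) ^ 2 := by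
  have hA := gqMat2 h ht
  have hs' : (3 : ℝ) ≤ s := by exact_mod_cast hs
  rw [P_diag hA hs', g_one hpx (Af_not hc)]

theorem P_acentric (h : IsGQ I s t) (hs : 3 ≤ s) (ht : t + s + 1 = s ^ 2) {p x y : P}
    (hT : Triad I p x y) (h0 : centres I p x y = 0) :
    H58.GQ.P (Af I) (s : ℝ) p x y = 1 / (s : ℝ) ^ 2 := by
  have hs' : (3 : ℝ) ≤ s := by exact_mod_cast hs
  obtain ⟨hs0, hs1, hs2, hs3⟩ := s_facts hs'
  rw [P_triad h hs ht hT, h0]
  push_cast
  field_simp
  ring

theorem col_eq (h : IsGQ I s t) (hs : 3 ≤ s) (ht : t + s + 1 = s ^ 2) {p x y : P}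
    (hT : Triad I p x y) (h0 : centres I p x y = 0) (z : P) :
    H58.GQ.P (Af I) (s : ℝ) p z x = H58.GQ.P (Af I) (s : ℝ) p z y := by
  have hA := gqMat2 h ht
  have hs' : (3 : ℝ) ≤ s := by exact_mod_cast hs
  refine P_col_eq hA hs' p x y ?_ ?_ z
  · rw [P_acentric h hs ht hT h0, P_one h hs ht hT.1 hT.2.2.2.1]
  · rw [P_acentric h hs ht hT h0, P_one h hs ht hT.2.1 hT.2.2.2.2.1]

theorem trans_p (h : IsGQ I s t) (hs : 3 ≤ s) (ht : t + s + 1 = s ^ 2) {p x y z : P}
    (hxz : x ≠ z) (hT : Triad I p x y) (h0 : centres I p x y = 0) (hT' : Triad I p y z)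
    (h0' : centres I p y z = 0) : Triad I p x z ∧ centres I p x z = 0 := by
  have hA := gqMat2 h ht
  have hs' : (3 : ℝ) ≤ s := by exact_mod_cast hs
  obtain ⟨hs0, hs1, hs2, hs3⟩ := s_facts hs'
  have h1 : H58.GQ.P (Af I) (s : ℝ) p x z = 1 / (s : ℝ) ^ 2 := by
    rw [← col_eq h hs ht hT' h0' x, P_acentric h hs ht hT h0]
  have hpx := hT.1
  have hpx' := hT.2.2.2.1
  have hpz := hT'.2.1
  have hpz' := hT'.2.2.2.2.1
  rw [P_entry hA hs' hpx (Af_not hpx') hpz (Af_not hpz'), sum_centres,
    Matrix.one_apply_ne hxz] at h1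
  have h2 : (s : ℝ) ^ 2 * Af I x z + s * (centres I p x z : ℝ) = 0 := by
    field_simp at h1
    linarith
  have h3 : 0 ≤ (centres I p x z : ℝ) := Nat.cast_nonneg _
  have hspos : (0 : ℝ) < s := by linarith
  have h4 : 0 ≤ Af I x z := by
    rcases Af_zero_one (I := I) x z with h0 | h0 <;> rw [h0]; norm_num
  have h5 : Af I x z = 0 := by
    by_contra hne
    have h6 : 0 < Af I x z := lt_of_le_of_ne h4 (Ne.symm hne)
    have : 0 < (s : ℝ) ^ 2 * Af I x z := by positivity
    have : 0 ≤ (s : ℝ) * (centres I p x z : ℝ) := by positivity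
    linarith
  have h6 : (centres I p x z : ℝ) = 0 := by
    rw [h5] at h2
    have : (s : ℝ) * (centres I p x z : ℝ) = 0 := by linarith
    exact (mul_eq_zero.1 this).resolve_left hs0
  refine ⟨⟨hpx, hpz, hxz, hpx', hpz', ?_⟩, by exact_mod_cast h6⟩
  intro hc
  rw [Af_coll hc] at h5
  norm_num at h5

theorem card_block (h : IsGQ I s t) (hs : 3 ≤ s) (ht : t + s + 1 = s ^ 2) {p x : P}
    (hpx : p ≠ x) (hc : ¬ Coll I p x) :
    Nat.card {y : P // Triad I p x y ∧ centres I p x y = 0} ≤ s - 1 := by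
  classical
  have hA := gqMat2 h ht
  have hs' : (3 : ℝ) ≤ s := by exact_mod_cast hs
  obtain ⟨hs0, hs1, hs2, hs3⟩ := s_facts hs'
  have hpx' : Af I p x = 0 := Af_not hc
  set f : P → ℝ := F (Af I) (s : ℝ) p x with hf
  have hge : ∀ z, -1 ≤ f z := by
    intro z
    rw [hf, F_eq h hs ht hpx hc]
    exact_mod_cast fval_ge h hs ht hpx hc z
  have hsum : ∑ z, (f z + 1) * (f z - 1) ^ 2 = ((s : ℝ) ^ 2 - 1) ^ 2 := by
    have key : ∀ z, (f z + 1) * (f z - 1) ^ 2 = f z ^ 3 - f z ^ 2 - f z + 1 := by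
      intro z; ring
    simp_rw [key, Finset.sum_add_distrib, Finset.sum_sub_distrib]
    rw [hf, F_cube hA hs' hpx hpx', F_sum hA hs']
    simp only [Finset.sum_const, Finset.card_univ, nsmul_eq_mul]
    rw [card_eq hA hs' p]
    ring
  set T : Finset P := Finset.univ.filter (fun z => f z = s) with hT
  have hle : (T.card : ℝ) * ((s + 1) * ((s : ℝ) - 1) ^ 2) ≤ ((s : ℝ) ^ 2 - 1) ^ 2 := by
    rw [← hsum]
    calc (T.card : ℝ) * ((s + 1) * ((s : ℝ) - 1) ^ 2)
        = ∑ z ∈ T, (f z + 1) * (f z - 1) ^ 2 := by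
          rw [Finset.sum_congr rfl (g := fun _ => ((s : ℝ) + 1) * ((s : ℝ) - 1) ^ 2)]
          · rw [Finset.sum_const, nsmul_eq_mul]
          · intro z hz
            rw [hT, Finset.mem_filter] at hz
            rw [hz.2]
      _ ≤ ∑ z, (f z + 1) * (f z - 1) ^ 2 := by
          apply Finset.sum_le_sum_of_subset_of_nonneg (Finset.subset_univ _)
          intro z _ _
          have := hge z
          apply mul_nonneg
          · linarith
          · positivity
  have hTc : T.card ≤ s + 1 := by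
    have h1 : ((s : ℝ) ^ 2 - 1) ^ 2 = (s + 1) * ((s + 1) * ((s : ℝ) - 1) ^ 2) := by ring
    rw [h1] at hle
    have h2 : 0 < ((s : ℝ) + 1) * ((s : ℝ) - 1) ^ 2 := by
      have : 0 < (s : ℝ) - 1 := by linarith
      positivity
    have h3 := le_of_mul_le_mul_right hle h2
    exact_mod_cast h3
  set S : Finset P := Finset.univ.filter
    (fun y => Triad I p x y ∧ centres I p x y = 0) with hS
  have hcard : Nat.card {y : P // Triad I p x y ∧ centres I p x y = 0} = S.card := by
    rw [Nat.card_eq_fintype_card, Fintype.card_subtype]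
  have hsub : insert p (insert x S) ⊆ T := by
    intro z hz
    rw [Finset.mem_insert, Finset.mem_insert] at hz
    rw [hT, Finset.mem_filter]
    refine ⟨Finset.mem_univ _, ?_⟩
    rw [hf, F_eq h hs ht hpx hc]
    rcases hz with rfl | rfl | hz
    · simp [fval]
    · simp [fval]
    · rw [hS, Finset.mem_filter] at hz
      rw [fval_triad hz.2.1, hz.2.2]
      simp
  have hxS : x ∉ S := by
    rw [hS, Finset.mem_filter]
    rintro ⟨_, h1, _⟩
    exact h1.2.2.1 rfl
  have hpS : p ∉ insert x S := by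
    rw [Finset.mem_insert, hS, Finset.mem_filter]
    rintro (h1 | ⟨_, h1, _⟩)
    · exact hpx h1
    · exact h1.2.1 rfl
  have h3 := Finset.card_le_card hsub
  rw [Finset.card_insert_of_notMem hpS, Finset.card_insert_of_notMem hxS] at h3
  rw [hcard]
  omega

theorem full_block (h : IsGQ I s t) (hs : 3 ≤ s) (ht : t + s + 1 = s ^ 2) {p x : P}
    (hpx : p ≠ x) (hc : ¬ Coll I p x)
    (hfull : Nat.card {y : P // Triad I p x y ∧ centres I p x y = 0} = s - 1) {z : P}
    (hz : Triad I p x z) :
    centres I p x z = 0 ∨ centres I p x z = s - 1 ∨ centres I p x z = s + 1 := by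
  classical
  have hA := gqMat2 h ht
  have hs' : (3 : ℝ) ≤ s := by exact_mod_cast hs
  obtain ⟨hs0, hs1, hs2, hs3⟩ := s_facts hs'
  have hpx' : Af I p x = 0 := Af_not hc
  set f : P → ℝ := F (Af I) (s : ℝ) p x with hf
  have hge : ∀ z, -1 ≤ f z := by
    intro z
    rw [hf, F_eq h hs ht hpx hc]
    exact_mod_cast fval_ge h hs ht hpx hc z
  have hsum : ∑ z, (f z + 1) * (f z - 1) ^ 2 = ((s : ℝ) ^ 2 - 1) ^ 2 := by
    have key : ∀ z, (f z + 1) * (f z - 1) ^ 2 = f z ^ 3 - f z ^ 2 - f z + 1 := by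
      intro z; ring
    simp_rw [key, Finset.sum_add_distrib, Finset.sum_sub_distrib]
    rw [hf, F_cube hA hs' hpx hpx', F_sum hA hs']
    simp only [Finset.sum_const, Finset.card_univ, nsmul_eq_mul]
    rw [card_eq hA hs' p]
    ring
  set S : Finset P := Finset.univ.filter
    (fun y => Triad I p x y ∧ centres I p x y = 0) with hS
  have hcard : S.card = s - 1 := by
    rw [← hfull, Nat.card_eq_fintype_card, Fintype.card_subtype]
  have hxS : x ∉ S := by
    rw [hS, Finset.mem_filter]
    rintro ⟨_, h1, _⟩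
    exact h1.2.2.1 rfl
  have hpS : p ∉ insert x S := by
    rw [Finset.mem_insert, hS, Finset.mem_filter]
    rintro (h1 | ⟨_, h1, _⟩)
    · exact hpx h1
    · exact h1.2.1 rfl
  have hTc : (insert p (insert x S)).card = s + 1 := by
    rw [Finset.card_insert_of_notMem hpS, Finset.card_insert_of_notMem hxS, hcard]
    omega
  have hval : ∀ w ∈ insert p (insert x S), f w = s := by
    intro w hw
    rw [Finset.mem_insert, Finset.mem_insert] at hw
    rw [hf, F_eq h hs ht hpx hc]
    rcases hw with rfl | rfl | hw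
    · simp [fval]
    · simp [fval]
    · rw [hS, Finset.mem_filter] at hw
      rw [fval_triad hw.2.1, hw.2.2]
      simp
  by_cases hzT : z ∈ insert p (insert x S)
  · left
    rw [Finset.mem_insert, Finset.mem_insert] at hzT
    rcases hzT with rfl | rfl | hzT
    · exact absurd rfl hz.2.1
    · exact absurd rfl hz.2.2.1
    · rw [hS, Finset.mem_filter] at hzT
      exact hzT.2.2
  · have hblock : ∑ w ∈ insert p (insert x S), (f w + 1) * (f w - 1) ^ 2
        = ((s : ℝ) ^ 2 - 1) ^ 2 := by
      rw [Finset.sum_congr rfl (g := fun _ => ((s : ℝ) + 1) * ((s : ℝ) - 1) ^ 2)]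
      · rw [Finset.sum_const, nsmul_eq_mul, hTc]
        push_cast
        ring
      · intro w hw
        rw [hval w hw]
    have hle : ∑ w ∈ insert z (insert p (insert x S)), (f w + 1) * (f w - 1) ^ 2
        ≤ ∑ w, (f w + 1) * (f w - 1) ^ 2 := by
      apply Finset.sum_le_sum_of_subset_of_nonneg (Finset.subset_univ _)
      intro w _ _
      have := hge w
      apply mul_nonneg
      · linarith
      · positivity
    rw [Finset.sum_insert hzT, hblock, hsum] at hle
    have hzge := hge z
    have hnn : 0 ≤ (f z + 1) * (f z - 1) ^ 2 := by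
      apply mul_nonneg
      · linarith
      · positivity
    have hzero : (f z + 1) * (f z - 1) ^ 2 = 0 := le_antisymm (by linarith) hnn
    rw [hf, F_eq h hs ht hpx hc, fval_triad hz] at hzero
    right
    rcases mul_eq_zero.1 hzero with h1 | h1
    · right
      have h2 : ((centres I p x z : ℕ) : ℝ) = ((s + 1 : ℕ) : ℝ) := by
        push_cast at h1 ⊢
        linarith
      exact_mod_cast h2
    · left
      have h3 := pow_eq_zero_iff (two_ne_zero) |>.1 h1
      have h2 : ((centres I p x z + 1 : ℕ) : ℝ) = ((s : ℕ) : ℝ) := by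
        push_cast at h3 ⊢
        linarith
      have h4 : centres I p x z + 1 = s := by exact_mod_cast h2
      omega

theorem full_block_odd (h : IsGQ I s t) (hs : 3 ≤ s) (ht : t + s + 1 = s ^ 2) {p x : P}
    (hpx : p ≠ x) (hc : ¬ Coll I p x)
    (hfull : Nat.card {y : P // Triad I p x y ∧ centres I p x y = 0} = s - 1) : Odd s := by
  classical
  have hA := gqMat2 h ht
  have hs' : (3 : ℝ) ≤ s := by exact_mod_cast hs
  obtain ⟨hs0, hs1, hs2, hs3⟩ := s_facts hs'
  have hpx' : Af I p x = 0 := Af_not hc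
  -- the three values
  have hval : ∀ z, fval I s p x z = -1 ∨ fval I s p x z = 1 ∨ fval I s p x z = s := by
    intro z
    by_cases h1 : z = p
    · right; right; simp [fval, h1]
    by_cases h2 : z = x
    · right; right; simp [fval, h2]
    by_cases h3 : Coll I z p
    · left; simp [fval, h1, h2, h3]
    by_cases h4 : Coll I z x
    · left; simp [fval, h1, h2, h4]
    have hT : Triad I p x z := ⟨hpx, Ne.symm h1, Ne.symm h2, hc, fun h' => h3 h'.symm,
      fun h' => h4 h'.symm⟩
    rw [fval_triad hT]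
    rcases full_block h hs ht hpx hc hfull hT with h5 | h5 | h5
    · right; right; rw [h5]; simp
    · right; left; rw [h5]; omega
    · left; rw [h5]; omega
  -- a point with value one
  have hex : ∃ y, fval I s p x y = 1 := by
    by_contra hcon
    push Not at hcon
    have h1 := F_norm hA hs' hpx hpx'
    have h2 := F_sum hA hs' p x
    simp_rw [F_eq h hs ht hpx hc] at h1 h2
    have key : ∀ z, (fval I s p x z : ℝ) ^ 2 = (s - 1) * (fval I s p x z : ℝ) + s := by
      intro z
      rcases hval z with h3 | h3 | h3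
      · rw [h3]; push_cast; ring
      · exact absurd h3 (hcon z)
      · rw [h3]; push_cast; ring
    simp_rw [key, Finset.sum_add_distrib, ← Finset.mul_sum, h2] at h1
    simp only [Finset.sum_const, Finset.card_univ, nsmul_eq_mul] at h1
    rw [card_eq hA hs' p] at h1
    have h4 : (s : ℝ) * (s + 1) ^ 2 * ((s : ℝ) - 1) * (s - 2) = 0 := by
      linear_combination h1
    have h5 : 0 < (s : ℝ) * (s + 1) ^ 2 * ((s : ℝ) - 1) * (s - 2) := by
      have : 0 < (s : ℝ) - 1 := by linarith
      have : 0 < (s : ℝ) - 2 := by linarith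
      positivity
    linarith
  obtain ⟨y, hy⟩ := hex
  have hge : ∀ w, -1 ≤ F (Af I) (s : ℝ) p x w := by
    intro w
    rw [F_eq h hs ht hpx hc]
    exact_mod_cast fval_ge h hs ht hpx hc w
  -- a neighbour of `y`
  have hnb : ∃ z, Af I y z = 1 := by
    by_contra hcon
    push Not at hcon
    have h1 : ∀ z, Af I y z = 0 := fun z =>
      (Af_zero_one (I := I) y z).resolve_right (hcon z)
    have h2 := hA.deg y
    simp_rw [h1, Finset.sum_const_zero] at h2
    have h3 : 0 < (s : ℝ) * ((s : ℝ) ^ 2 - s) := by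
      have : 0 < (s : ℝ) ^ 2 - s := by nlinarith
      positivity
    linarith
  obtain ⟨z, hz⟩ := hnb
  have h1 := F_line hA hs' p x hz
  have h2 := e_sum hA hz
  simp_rw [F_eq h hs ht hpx hc] at h1
  -- on the line every value is `-1` or `1`
  have hpar : ∀ w, ∃ k : ℤ, e (Af I) y z w * ((fval I s p x w : ℝ) + 1) = 2 * (k : ℝ) := by
    intro w
    rcases e_zero_one hA hz w with h3 | h3
    · exact ⟨0, by rw [h3]; simp⟩
    · have hw : fval I s p x w = -1 ∨ fval I s p x w = 1 := by
        rcases hval w with h4 | h4 | h4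
        · exact Or.inl h4
        · exact Or.inr h4
        · exfalso
          by_cases hyw : y = w
          · rw [← hyw, hy] at h4
            have : (s : ℤ) = 1 := h4.symm
            omega
          · have h5 := e_clique hA hz h3 y
            rw [e_left hA hz, Matrix.one_apply_ne (Ne.symm hyw)] at h5
            have h6 : Af I y w = 1 := by rw [Af_symm]; linarith
            have h7 := F_line_le hA hs' hge h6
            rw [F_eq h hs ht hpx hc, F_eq h hs ht hpx hc, hy, h4] at h7
            push_cast at h7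
            linarith
      rcases hw with h4 | h4
      · exact ⟨0, by rw [h4]; push_cast; ring⟩
      · exact ⟨1, by rw [h3, h4]; push_cast; ring⟩
  choose k hk using hpar
  have h3 : ∑ w, e (Af I) y z w * ((fval I s p x w : ℝ) + 1) = s + 1 := by
    simp_rw [mul_add, Finset.sum_add_distrib, mul_one]
    rw [h1, h2]; ring
  simp_rw [hk, ← Finset.mul_sum] at h3
  have h4 : 2 * (∑ w, k w) = (s : ℤ) + 1 := by exact_mod_cast h3
  rcases Nat.even_or_odd s with h5 | h5
  · exfalso
    obtain ⟨m, hm⟩ := h5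
    omega
  · exact h5

theorem same_centres (h : IsGQ I s t) (hs : 3 ≤ s) (ht : t + s + 1 = s ^ 2) {p x y z : P}
    (hT : Triad I p x y) (h0 : centres I p x y = 0) (hxz : Triad I p x z)
    (hyz : Triad I p y z) : centres I p x z = centres I p y z := by
  have hs' : (3 : ℝ) ≤ s := by exact_mod_cast hs
  obtain ⟨hs0, hs1, hs2, hs3⟩ := s_facts hs'
  have h1 := col_eq h hs ht hT h0 z
  rw [P_triad h hs ht hxz.swap23, P_triad h hs ht hyz.swap23, centres_swap23 p z x,
    centres_swap23 p z y] at h1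
  have h2 : (s : ℝ) * (centres I p x z : ℝ) = s * (centres I p y z : ℝ) := by
    field_simp at h1
    linarith
  have h3 := mul_left_cancel₀ hs0 h2
  exact_mod_cast h3

theorem near_centres (h : IsGQ I s t) (hs : 3 ≤ s) (ht : t + s + 1 = s ^ 2) {p x y z : P}
    (hT : Triad I p x y) (h0 : centres I p x y = 0) (hxz : Coll I x z)
    (hyz : Triad I p y z) : centres I p y z = s + 1 := by
  have hA := gqMat2 h ht
  have hs' : (3 : ℝ) ≤ s := by exact_mod_cast hs
  obtain ⟨hs0, hs1, hs2, hs3⟩ := s_facts hs'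
  have h1 := col_eq h hs ht hT h0 z
  have hpz := hyz.2.1
  have hpz' := hyz.2.2.2.2.1
  have hpx := hT.1
  have hpx' := hT.2.2.2.1
  rw [P_triad h hs ht hyz.swap23, centres_swap23 p z y, P_edge hA hs' p (Af_coll hxz.symm),
    g_one hpz (Af_not hpz'), g_one hpx (Af_not hpx')] at h1
  have h2 : (s : ℝ) * (centres I p y z : ℝ) = s * (s + 1) := by
    field_simp at h1
    have h3 : ((s : ℝ) - 1) * ((s : ℝ) * (centres I p y z : ℝ) - s * (s + 1)) = 0 := by
      linear_combination h1
    have h4 := (mul_eq_zero.1 h3).resolve_left hs2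
    linarith
  have h3 := mul_left_cancel₀ hs0 h2
  exact_mod_cast h3

theorem local_moment (h : IsGQ I s t) (hs : 3 ≤ s) (ht : t + s + 1 = s ^ 2) {p x : P}
    (hpx : p ≠ x) (hc : ¬ Coll I p x) (y : P) :
    ∑ᶠ z ∈ {z | Coll I y z}, fval I s p x z ^ 2
      = (s - 1) * fval I s p x y ^ 2 - (s ^ 2 - 1) * fval I s p x y + s * (s ^ 2 - 1) := by
  classical
  have hA := gqMat2 h ht
  have hs' : (3 : ℝ) ≤ s := by exact_mod_cast hs
  have h1 := F_nbr_sq hA hs' hpx (Af_not hc) y
  simp_rw [F_eq h hs ht hpx hc] at h1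
  have h2 : ({z | Coll I y z} : Set P)
      = ((Finset.univ.filter (fun z => Coll I y z) : Finset P) : Set P) := by
    ext z; simp
  rw [h2, finsum_mem_coe_finset, Finset.sum_filter]
  have h3 : ((∑ z, (if Coll I y z then fval I s p x z ^ 2 else 0) : ℤ) : ℝ)
      = ∑ z, Af I y z * (fval I s p x z : ℝ) ^ 2 := by
    push_cast
    refine Finset.sum_congr rfl fun z _ => ?_
    by_cases h4 : Coll I y z
    · rw [if_pos h4, Af_coll h4]; ring
    · rw [if_neg h4, Af_not h4]; ring
  rw [← h3] at h1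
  exact_mod_cast h1

theorem global_moment (h : IsGQ I s t) (hs : 3 ≤ s) (ht : t + s + 1 = s ^ 2) {p x : P}
    (hpx : p ≠ x) (hc : ¬ Coll I p x) :
    ∑ᶠ z, fval I s p x z ^ 2 = s * (s + 1) ^ 2 * (s - 1) ∧
    ∑ᶠ z, fval I s p x z ^ 3 = s * (s + 1) ^ 2 * (s - 1) := by
  classical
  have hA := gqMat2 h ht
  have hs' : (3 : ℝ) ≤ s := by exact_mod_cast hs
  have h1 := F_norm hA hs' hpx (Af_not hc)
  have h2 := F_cube hA hs' hpx (Af_not hc)
  rw [h1] at h2
  simp_rw [F_eq h hs ht hpx hc] at h1 h2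
  rw [finsum_eq_sum_of_fintype, finsum_eq_sum_of_fintype]
  constructor
  · exact_mod_cast h1
  · exact_mod_cast h2

theorem structure_of (h : IsGQ I s t) (hs : 3 ≤ s) (ht : t + s + 1 = s ^ 2) :
    Structure I s := by
  refine ⟨?_, ?_, ?_, ?_, ?_, ?_, ?_⟩
  · intro x y z hT
    have h1 := fval_ge h hs ht hT.1 hT.2.2.2.1 z
    rw [fval_triad hT] at h1
    exact ⟨by omega, ne_one h hs ht hT⟩
  · intro p x y z hxz hT h0 hT' h0'
    refine ⟨trans_p h hs ht hxz hT h0 hT' h0', ?_⟩
    -- base point `y`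
    have h1 : Triad I y x p := hT.swap23.swap12.swap23
    have h1' : centres I y x p = 0 := by
      rw [centres_swap23, centres_swap12, centres_swap23]; exact h0
    have h2 : Triad I y p z := hT'.swap12
    have h2' : centres I y p z = 0 := by rw [centres_swap12]; exact h0'
    obtain ⟨h3, h4⟩ := trans_p h hs ht hxz h1 h1' h2 h2'
    exact ⟨h3.swap12, by rw [centres_swap12]; exact h4⟩
  · intro p x hpx hc
    exact ⟨card_block h hs ht hpx hc, fun hfull => ⟨full_block_odd h hs ht hpx hc hfull,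
      fun z hz => full_block h hs ht hpx hc hfull hz⟩⟩
  · intro p x y z hT h0 h1 h2
    exact same_centres h hs ht hT h0 h1 h2
  · intro p x y z hT h0 h1 h2
    exact near_centres h hs ht hT h0 h1 h2
  · intro p x hpx hc y
    exact local_moment h hs ht hpx hc y
  · intro p x hpx hc
    exact global_moment h hs ht hpx hc

end

/-- **There is no finite generalized quadrangle of order `(4, 11)`.** -/
theorem no_four_eleven (P : Type u) (B : Type v) [Finite P] [Finite B] [Nonempty P]
    (I : P → B → Prop) : ¬ IsGQ I 4 11 := by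
  classical
  intro h
  have := Fintype.ofFinite P
  have := Fintype.ofFinite B
  have hA : Pool.Agent.H253_GQ.GQMat (Af I) 4 12 := by
    have := gqMat h
    norm_num at this
    exact this
  obtain ⟨p⟩ := ‹Nonempty P›
  have hA' := gqMat2 h (by norm_num)
  have h43 : (3 : ℝ) ≤ ((4 : ℕ) : ℝ) := by norm_num
  obtain ⟨x0, hpx0, hx0⟩ := Pool.Agent.H58.GQ.exists_far hA' h43 p
  have hc0 : ¬ Coll I p x0 := fun hc => by
    rw [Af_coll hc] at hx0
    norm_num at hx0
  set f : P → ℝ := Pool.Agent.H58.GQ.F (Af I) ((4 : ℕ) : ℝ) p x0 with hfdef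
  have hint : ∀ y, ∃ k : ℤ, f y = k := fun y =>
    ⟨_, F_eq h (by norm_num) (by norm_num) hpx0 hc0 y⟩
  have hfp : f p = 4 := by
    rw [hfdef, Pool.Agent.H58.GQ.F_self hA' h43]
    norm_num
  have hlow : ∀ y, -1 ≤ f y := by
    intro y
    rw [hfdef, F_eq h (by norm_num) (by norm_num) hpx0 hc0]
    exact_mod_cast fval_ge h (by norm_num) (by norm_num) hpx0 hc0 y
  have hsq : ∀ y, ∑ z, Af I y z * f z ^ 2 = 3 * f y ^ 2 - 15 * f y + 60 := by
    intro y
    have h1 := Pool.Agent.H58.GQ.F_nbr_sq hA' h43 hpx0 hx0 y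
    rw [← hfdef] at h1
    rw [h1]
    push_cast
    ring
  have hlin : ∀ y, ∑ z, Af I y z * f z = -12 * f y := by
    intro y
    have h1 := Pool.Agent.H58.GQ.F_nbr hA' h43 p x0 y
    rw [← hfdef] at h1
    rw [h1]
    push_cast
    ring
  have hline : ∀ q r, Af I q r = 1 → ∑ w, Pool.Agent.H58.GQ.e (Af I) q r w * f w = 0 :=
    fun q r hqr => Pool.Agent.H58.GQ.F_line hA' h43 p x0 hqr
  -- pass to `g = f + 1`
  have hg : ∀ y, ∃ n : ℕ, f y + 1 = n := by
    intro y
    obtain ⟨k, hk⟩ := hint y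
    have h1 := hlow y
    rw [hk] at h1
    have h2 : (0 : ℤ) ≤ k + 1 := by
      have : (-1 : ℤ) ≤ k := by exact_mod_cast h1
      linarith
    refine ⟨(k + 1).toNat, ?_⟩
    rw [hk]
    have h3 : (((k + 1).toNat : ℤ) : ℝ) = ((k + 1 : ℤ) : ℝ) := by rw [Int.toNat_of_nonneg h2]
    push_cast at h3
    rw [h3]
  choose g hg using hg
  -- squares over the neighbours
  have hnb : ∀ y, ∑ z, Af I y z * (g z : ℝ) ^ 2 = 3 * (g y : ℝ) ^ 2 - 45 * g y + 150 := by
    intro y
    have key : ∀ z, Af I y z * (g z : ℝ) ^ 2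
        = Af I y z * f z ^ 2 + 2 * (Af I y z * f z) + Af I y z := by
      intro z
      rw [← hg z]; ring
    simp_rw [key, Finset.sum_add_distrib, ← Finset.mul_sum, hsq, hlin, hA.deg, ← hg y]
    ring
  -- squares over the lines through `y`
  have hthrough : ∀ y, ∑ L, Nf I y L * ∑ z, Nf I z L * (g z : ℝ) ^ 2
      = 15 * ((g y : ℝ) ^ 2 - 3 * g y + 10) := by
    intro y
    have h1 : ∀ L, Nf I y L * ∑ z, Nf I z L * (g z : ℝ) ^ 2
        = ∑ z, Nf I y L * Nf I z L * (g z : ℝ) ^ 2 := by
      intro L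
      rw [Finset.mul_sum]
      exact Finset.sum_congr rfl fun z _ => by ring
    simp_rw [h1]
    rw [Finset.sum_comm]
    simp_rw [← Finset.sum_mul, sum_Nf_Nf h, add_mul, Finset.sum_add_distrib, hnb, mul_assoc,
      ← Finset.mul_sum]
    have h2 : ∑ z, (1 : Matrix P P ℝ) y z * (g z : ℝ) ^ 2 = (g y : ℝ) ^ 2 :=
      Pool.Agent.H253_GQ.sum_one_mul y _
    rw [h2]
    push_cast
    ring
  -- the double count
  have hcount : ∑ L, (4 * (∑ z, Nf I z L * (g z : ℝ) ^ 2) * (∑ z, Nf I z L * (hz (g z) : ℝ))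
      - 5 * ∑ z, Nf I z L * ((hz (g z) : ℝ) * ((g z : ℝ) ^ 2 - 3 * g z + 10))) = 0 := by
    have h1 : ∀ L, 4 * (∑ z, Nf I z L * (g z : ℝ) ^ 2) * (∑ z, Nf I z L * (hz (g z) : ℝ))
        = ∑ y, 4 * (hz (g y) : ℝ) * (Nf I y L * ∑ z, Nf I z L * (g z : ℝ) ^ 2) := by
      intro L
      rw [Finset.mul_sum]
      exact Finset.sum_congr rfl fun z _ => by ring
    have h2 : ∀ L, 5 * ∑ z, Nf I z L * ((hz (g z) : ℝ) * ((g z : ℝ) ^ 2 - 3 * g z + 10))
        = ∑ y, 5 * ((hz (g y) : ℝ) * ((g y : ℝ) ^ 2 - 3 * g y + 10)) * Nf I y L := by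
      intro L
      rw [Finset.mul_sum]
      exact Finset.sum_congr rfl fun z _ => by ring
    simp_rw [h1, h2, Finset.sum_sub_distrib]
    rw [Finset.sum_comm]
    conv_lhs => rw [Finset.sum_comm (s := (Finset.univ : Finset B)) (t := (Finset.univ : Finset P))
      (f := fun L y => 5 * ((hz (g y) : ℝ) * ((g y : ℝ) ^ 2 - 3 * g y + 10)) * Nf I y L)]
    simp_rw [← Finset.mul_sum, hthrough, sum_lines h, ← Finset.sum_sub_distrib]
    apply Finset.sum_eq_zero
    intro y _
    push_cast
    ring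
  -- every line sum is five
  have hfive : ∀ L, ∀ x : Fin 5 → P, (∀ i, I (x i) L) → Function.Injective x →
      (∀ φ : P → ℝ, ∑ y, Nf I y L * φ y = ∑ i, φ (x i)) →
      g (x 0) + g (x 1) + g (x 2) + g (x 3) + g (x 4) = 5 := by
    intro L x hx hinj hsum
    have hne : x 0 ≠ x 1 := fun hh => by simpa using hinj hh
    have h1 := hline (x 0) (x 1) (Af_pos hne (hx 0) (hx 1))
    simp_rw [e_eq h hne (hx 0) (hx 1)] at h1
    rw [hsum] at h1
    have h2 : ∀ y, f y = (g y : ℝ) - 1 := fun y => by rw [← hg y]; ring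
    simp only [Fin.sum_univ_five, h2] at h1
    have h3 : ((g (x 0) + g (x 1) + g (x 2) + g (x 3) + g (x 4) : ℕ) : ℝ) = ((5 : ℕ) : ℝ) := by
      push_cast
      linarith
    exact_mod_cast h3
  have hterm : ∀ L, ∃ x : Fin 5 → P, (∀ p, I p L → ∃ i, x i = p) ∧
      g (x 0) + g (x 1) + g (x 2) + g (x 3) + g (x 4) = 5 ∧
      (4 * (∑ z, Nf I z L * (g z : ℝ) ^ 2) * (∑ z, Nf I z L * (hz (g z) : ℝ))
      - 5 * ∑ z, Nf I z L * ((hz (g z) : ℝ) * ((g z : ℝ) ^ 2 - 3 * g z + 10)))
      = (Psi (g (x 0)) (g (x 1)) (g (x 2)) (g (x 3)) (g (x 4)) : ℝ) := by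
    intro L
    obtain ⟨x, hx, hinj, hsurj, hsum⟩ := line_param h L
    refine ⟨x, hsurj, hfive L x hx hinj hsum, ?_⟩
    rw [hsum, hsum, hsum]
    simp only [Fin.sum_univ_five, Psi]
    push_cast
    ring
  -- a line through `p`
  have hL : ∃ L, I p L := by
    by_contra hcon
    push Not at hcon
    have h1 := sum_lines h p
    have h2 : ∑ L, Nf I p L = 0 := Finset.sum_eq_zero fun L _ => Nf_neg (hcon L)
    rw [h2] at h1
    norm_num at h1
  obtain ⟨L, hpL⟩ := hL
  have hgp : g p = 5 := by
    have h1 := hg p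
    rw [hfp] at h1
    have h2 : ((g p : ℕ) : ℝ) = ((5 : ℕ) : ℝ) := by rw [← h1]; norm_num
    exact_mod_cast h2
  have hnn : ∀ M ∈ (Finset.univ : Finset B), 0 ≤
      (4 * (∑ z, Nf I z M * (g z : ℝ) ^ 2) * (∑ z, Nf I z M * (hz (g z) : ℝ))
      - 5 * ∑ z, Nf I z M * ((hz (g z) : ℝ) * ((g z : ℝ) ^ 2 - 3 * g z + 10))) := by
    intro M _
    obtain ⟨x, _, h5, heq⟩ := hterm M
    rw [heq]
    exact_mod_cast (psi_nonneg h5).1
  have hzero := (Finset.sum_eq_zero_iff_of_nonneg hnn).1 hcount L (Finset.mem_univ L)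
  obtain ⟨x, hsurj, h5, heq⟩ := hterm L
  rw [heq] at hzero
  have hpos := (psi_nonneg h5).2 (by
    obtain ⟨i, hi⟩ := hsurj p hpL
    fin_cases i
    · left; simpa using (congrArg g hi).trans hgp
    · right; left; simpa using (congrArg g hi).trans hgp
    · right; right; left; simpa using (congrArg g hi).trans hgp
    · right; right; right; left; simpa using (congrArg g hi).trans hgp
    · right; right; right; right; simpa using (congrArg g hi).trans hgp)
  have hzero' : Psi (g (x 0)) (g (x 1)) (g (x 2)) (g (x 3)) (g (x 4)) = 0 := by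
    exact_mod_cast hzero
  rw [hzero'] at hpos
  exact lt_irrefl _ hpos

/-- Higman's bound and the integrality of the multiplicity. -/
theorem necessary {P : Type u} {B : Type v} [Finite P] [Finite B] [Nonempty P]
    {I : P → B → Prop} {s t : ℕ} (hs : 2 ≤ s) (ht : 1 ≤ t) (h : IsGQ I s t) :
    t ≤ s ^ 2 ∧ (s + t) ∣ s ^ 2 * (s * t + 1) := by
  classical
  have := Fintype.ofFinite P
  have := Fintype.ofFinite B
  have hA := gqMat h
  obtain ⟨p⟩ := ‹Nonempty P›
  have hs' : (2 : ℝ) ≤ s := by exact_mod_cast hs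
  have ht' : (1 : ℝ) ≤ t := by exact_mod_cast ht
  constructor
  · have h1 := Pool.Agent.H58.GQ.Gen.higman hA (by linarith) (by linarith) p
    have h2 : (t : ℝ) ≤ (s : ℝ) ^ 2 := by linarith
    exact_mod_cast h2
  · obtain ⟨n, hn⟩ := Pool.Agent.H58.GQ.Gen.trace_nat hA (by linarith) (by linarith) p
    refine ⟨n, ?_⟩
    have h2 : ((s ^ 2 * (s * t + 1) : ℕ) : ℝ) = (((s + t) * n : ℕ) : ℝ) := by
      push_cast
      linear_combination hn
    exact_mod_cast h2

/-- Below `s^2` the order is at most `s^2 - s`. -/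
theorem gap {s t : ℕ} (hdvd : (s + t) ∣ s ^ 2 * (s * t + 1)) (hlt : t < s ^ 2) :
    t + s ≤ s ^ 2 := by
  by_contra hcon
  push Not at hcon
  -- `x = s^2 - t`, `0 < x < s`
  obtain ⟨x, hx⟩ : ∃ x : ℕ, t + x = s ^ 2 := ⟨s ^ 2 - t, by omega⟩
  have hx0 : 0 < x := by omega
  have hxs : x < s := by omega
  obtain ⟨y, hy⟩ : ∃ y : ℕ, x + y = s := ⟨s - x, by omega⟩
  have hy0 : 0 < y := by omega
  have h1 : ((s : ℤ) + t) ∣ (y : ℤ) * (y + 1) := by
    have h2 : ((s : ℤ) + t) ∣ (s : ℤ) ^ 2 * (s * t + 1) := by exact_mod_cast hdvd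
    have hx' : (t : ℤ) = s ^ 2 - x := by
      have : (t : ℤ) + x = s ^ 2 := by exact_mod_cast hx
      linarith
    have hy' : (y : ℤ) = s - x := by
      have : (x : ℤ) + y = s := by exact_mod_cast hy
      linarith
    -- modulo `N = s + t` we have `t = -s` and `s^2 = x - s`
    have h3 : (s : ℤ) ^ 2 * (s * t + 1) = ((s : ℤ) + t) * (s ^ 3)
        - (s ^ 2 * (s ^ 2 - 1)) := by ring
    have h4 : (s : ℤ) ^ 2 * (s ^ 2 - 1) = ((s : ℤ) + t) * ((s : ℤ) ^ 2 + x - s - 1)
        + (y : ℤ) * (y + 1) := by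
      rw [hx', hy']
      ring
    have h5 : (y : ℤ) * (y + 1) = ((s : ℤ) + t) * (s ^ 3)
        - ((s : ℤ) + t) * ((s : ℤ) ^ 2 + x - s - 1) - (s : ℤ) ^ 2 * (s * t + 1) := by
      linear_combination (-1 : ℤ) * h4 - h3
    rw [h5]
    exact dvd_sub (dvd_sub (dvd_mul_right _ _) (dvd_mul_right _ _)) h2
  have h6 : (s + t) ∣ y * (y + 1) := by exact_mod_cast h1
  have h7 := Nat.le_of_dvd (by positivity) h6
  have h8 : y + 1 ≤ s := by omega
  have h9 : y * (y + 1) ≤ s * (y + 1) := Nat.mul_le_mul_right _ (by omega)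
  have h10 : s * (y + 1) ≤ s * s := Nat.mul_le_mul_left _ h8
  nlinarith

/-- **Generalized quadrangles of order `(s, t)` with `s ≥ 3` and `t ≥ s^2 - s - 1`.** Such a
generalized quadrangle has `t = s^2`, or `t = s^2 - s - 1` and `s ≠ 4`; so there is none of order
`(4, 11)` and none of order `(4, 12)`. If `t = s^2 - s - 1`, its triads have the structure described
above. -/
theorem result (s t : ℕ) (hs : 3 ≤ s) (hlow : s ^ 2 ≤ t + s + 1)
    (P : Type u) (B : Type v) [Finite P] [Finite B] [Nonempty P] (I : P → B → Prop)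
    (h : IsGQ I s t) : t = s ^ 2 ∨ (t + s + 1 = s ^ 2 ∧ s ≠ 4 ∧ Structure I s) := by
  classical
  have ht1 : 1 ≤ t := by nlinarith
  obtain ⟨hle, hdvd⟩ := necessary (by omega) ht1 h
  rcases Nat.lt_or_ge t (s ^ 2) with hlt | hge
  · right
    have hupp := gap hdvd hlt
    have := Fintype.ofFinite P
    have := Fintype.ofFinite B
    have hne : t + s ≠ s ^ 2 := by
      intro ht
      have h1 := gqMat h
      have h2 : (t : ℝ) + 1 = (s : ℝ) ^ 2 - s + 1 := by
        have : (t : ℝ) + s = (s : ℝ) ^ 2 := by exact_mod_cast ht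
        linarith
      rw [h2] at h1
      exact Pool.Agent.H253_GQ.no_GQMat s hs (Af I) h1
    have ht : t + s + 1 = s ^ 2 := by omega
    refine ⟨ht, ?_, structure_of h hs ht⟩
    rintro rfl
    have ht' : t = 11 := by omega
    subst ht'
    exact no_four_eleven P B I h
  · left
    omega

/-- There is no finite generalized quadrangle of order `(4, 11)` and none of order `(4, 12)`. -/
theorem four_eleven_four_twelve (P : Type u) (B : Type v) [Finite P] [Finite B] [Nonempty P]
    (I : P → B → Prop) : ¬ IsGQ I 4 11 ∧ ¬ IsGQ I 4 12 := by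
  constructor
  · intro h
    rcases result 4 11 (by norm_num) (by norm_num) P B I h with h1 | h1
    · norm_num at h1
    · exact h1.2.1 rfl
  · intro h
    rcases result 4 12 (by norm_num) (by norm_num) P B I h with h1 | h1
    · norm_num at h1
    · norm_num at h1

end Pool.Agent.Results.MP_a3aa3c_co.TriadStructure
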